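import Pool.Agent.Helper52.ES.Spec

set_option autoImplicit false

/-! # Basic estimates for the drawing -/

namespace Pool.Agent.Helper59.ES

open Pool.Agent.Helper52.ES Pool.Agent.Helper52.Grid


variable {p : Par} {W : ℕ}

theorem dst_eq (a b : Vx) : p.dst a b =
    Real.sqrt (((p.px a : ℝ) - p.px b) ^ 2 + ((p.py a : ℝ) - p.py b) ^ 2) := by
  unfold Par.dst Helper52.ETSP.edist Par.pos
  push_cast
  rfl

theorem dst_comm (a b : Vx) : p.dst a b = p.dst b a := by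
  rw [dst_eq, dst_eq]
  congr 1
  ring

theorem far_comm {a b : Vx} (h : p.Far W a b) : p.Far W b a := by
  unfold Par.Far at *
  rw [dst_comm]
  linarith

theorem far_sq {a b : Vx} (x y : ℝ) (hx : (p.px a : ℝ) - p.px b = x)
    (hy : (p.py a : ℝ) - p.py b = y)
    (h : (p.rad a + p.rad b + (W + 1)) ^ 2 ≤ x ^ 2 + y ^ 2) : p.Far W a b := by
  unfold Par.Far
  rw [dst_eq, hx, hy]
  exact Real.le_sqrt_of_sq_le h

theorem dst_ge_x (a b : Vx) : |(p.px a : ℝ) - p.px b| ≤ p.dst a b := by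
  rw [dst_eq]
  refine Real.le_sqrt_of_sq_le ?_
  rw [sq_abs]
  nlinarith [sq_nonneg ((p.py a : ℝ) - p.py b)]

theorem dst_ge_y (a b : Vx) : |(p.py a : ℝ) - p.py b| ≤ p.dst a b := by
  rw [dst_eq]
  refine Real.le_sqrt_of_sq_le ?_
  rw [sq_abs]
  nlinarith [sq_nonneg ((p.px a : ℝ) - p.px b)]

theorem far_x {a b : Vx} (h : p.rad a + p.rad b + (W + 1) ≤ (p.px a : ℝ) - p.px b) :
    p.Far W a b :=
  h.trans ((le_abs_self _).trans (dst_ge_x a b))

theorem far_x' {a b : Vx} (h : p.rad a + p.rad b + (W + 1) ≤ (p.px b : ℝ) - p.px a) :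
    p.Far W a b := by
  refine h.trans (le_trans ?_ (dst_ge_x a b))
  have := neg_le_abs ((p.px a : ℝ) - p.px b)
  linarith

theorem far_y {a b : Vx} (h : p.rad a + p.rad b + (W + 1) ≤ (p.py a : ℝ) - p.py b) :
    p.Far W a b :=
  h.trans ((le_abs_self _).trans (dst_ge_y a b))

theorem far_y' {a b : Vx} (h : p.rad a + p.rad b + (W + 1) ≤ (p.py b : ℝ) - p.py a) :
    p.Far W a b := by
  refine h.trans (le_trans ?_ (dst_ge_y a b))
  have := neg_le_abs ((p.py a : ℝ) - p.py b)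
  linarith

/-- numerical facts about a row -/
structure Row (p : Par) (W i : ℕ) : Prop where
  C0 : (0 : ℝ) ≤ p.C i
  CA : (p.C i : ℝ) ≤ p.A i
  CR : (p.C i : ℝ) ≤ p.R i
  H : (p.H i : ℝ) = ((p.R i : ℝ) + p.A i - p.C i) / 2
  low : (p.R i : ℝ) ^ 2 ≤ (p.A i : ℝ) ^ 2 + (p.C i : ℝ) ^ 2
  high : (p.A i : ℝ) ^ 2 + (p.C i : ℝ) ^ 2 ≤ ((p.R i : ℝ) + 2) ^ 2
  W0 : (0 : ℝ) ≤ W
  big : 100 * ((W : ℝ) + 2) ≤ p.A i
  sml : 8 * (p.A i : ℝ) ≤ p.u
  R1 : (p.R i : ℝ) ≤ p.A i + p.C i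
  RA : (p.A i : ℝ) ≤ p.R i + 2
  /-- `(R - C) / 2 ≥ A / 5` -/
  s : (p.A i : ℝ) / 5 ≤ ((p.R i : ℝ) - p.C i) / 2

theorem row (ok : p.Ok W) {i : ℕ} (hi : i < p.rows) : Row p W i := by
  have C0 : (0 : ℝ) ≤ p.C i := Nat.cast_nonneg _
  have R0 : (0 : ℝ) ≤ p.R i := Nat.cast_nonneg _
  have A0 : (0 : ℝ) ≤ p.A i := Nat.cast_nonneg _
  have W0 : (0 : ℝ) ≤ W := Nat.cast_nonneg _
  have CA : (p.C i : ℝ) ≤ p.A i := by exact_mod_cast ok.CA i hi
  have CR : (p.C i : ℝ) ≤ p.R i := by exact_mod_cast ok.CR i hi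
  have H : (p.H i : ℝ) = ((p.R i : ℝ) + p.A i - p.C i) / 2 := by
    have h1 := ok.par i hi
    have h2 := ok.CR i hi
    have h3 : 2 * p.H i + p.C i = p.R i + p.A i := by omega
    have h4 : 2 * (p.H i : ℝ) + p.C i = p.R i + p.A i := by exact_mod_cast h3
    linarith
  have low : (p.R i : ℝ) ^ 2 ≤ (p.A i : ℝ) ^ 2 + (p.C i : ℝ) ^ 2 := by
    exact_mod_cast ok.low i hi
  have high : (p.A i : ℝ) ^ 2 + (p.C i : ℝ) ^ 2 ≤ ((p.R i : ℝ) + 2) ^ 2 := by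
    exact_mod_cast ok.high i hi
  have big : 100 * ((W : ℝ) + 2) ≤ p.A i := by exact_mod_cast ok.big i hi
  have sml : 8 * (p.A i : ℝ) ≤ p.u := by exact_mod_cast ok.sml i hi
  have R1 : (p.R i : ℝ) ≤ p.A i + p.C i := by
    refine le_of_sq_le_sq ?_ (by linarith)
    nlinarith [mul_nonneg A0 C0]
  have RA : (p.A i : ℝ) ≤ p.R i + 2 := by
    refine le_of_sq_le_sq ?_ (by linarith)
    nlinarith [sq_nonneg (p.C i : ℝ)]
  have s1 : (p.C i : ℝ) + 41 / 100 * p.A i ≤ p.R i + 2 := by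
    refine le_of_sq_le_sq ?_ (by linarith)
    nlinarith [mul_le_mul_of_nonneg_left CA A0]
  exact ⟨C0, CA, CR, H, low, high, W0, big, sml, R1, RA, by linarith⟩
where
  le_of_sq_le_sq {x y : ℝ} (h : x ^ 2 ≤ y ^ 2) (hy : 0 ≤ y) : x ≤ y :=
    le_of_not_gt fun hc => by nlinarith

/-! ### radii of rings and discs -/

theorem u_pow : (p.u : ℝ) = 2 ^ p.e := by
  unfold Par.u
  push_cast
  rfl

theorem rad_ring (i c : ℕ) : p.rad (ring i c) = (p.r2 i c : ℝ) / 2 := by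
  simp [Par.rad]

theorem rad_ring0 (i : ℕ) : p.rad (ring i 0) = (p.A i : ℝ) / 2 := by
  rw [rad_ring]; simp [Par.r2]

theorem rad_ring3 (i : ℕ) : p.rad (ring i 3) = (p.A i : ℝ) / 2 := by
  rw [rad_ring]; simp [Par.r2]

theorem rad_ring1 (ok : p.Ok W) {i : ℕ} (hi : i < p.rows) :
    p.rad (ring i 1) = ((p.R i : ℝ) - p.C i) / 2 := by
  rw [rad_ring]
  have := ok.CR i hi
  simp only [Par.r2, if_true]
  rw [Nat.cast_sub this]

theorem rad_ring2 (i : ℕ) : p.rad (ring i 2) = ((p.R i : ℝ) + p.C i) / 2 := by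
  rw [rad_ring]; simp [Par.r2]

theorem rad_coin_le (i c k : ℕ) : p.rad (coin i c k) ≤ 2 / 5 * 2 ^ k := by
  have h : (0 : ℝ) < 2 ^ k := by positivity
  simp only [Par.rad]
  simp only [OfNat.ofNat_ne_zero, if_false, OfNat.ofNat_ne_one, Nat.reduceEqDiff, or_self]
  split_ifs <;> linarith

theorem rad_coin_le' {i c k : ℕ} (h : p.fst' i c k = false) :
    p.rad (coin i c k) = 7 / 20 * 2 ^ k := by
  simp only [Par.rad]
  simp only [OfNat.ofNat_ne_zero, if_false, OfNat.ofNat_ne_one, Nat.reduceEqDiff, or_self, h]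
  simp

/-- a disc with number at least `fk` is at distance more than `5 / 6` radii -/
theorem lt_coin (fk : p.FK) {i c k : ℕ} (hi : i < p.rows) (hc : c < 4) (hk : p.fk i c ≤ k) :
    5 / 6 * ((p.r2 i c : ℝ) / 2) < 2 ^ k := by
  have h := (fk.cn i hi c hc k).2 hk
  unfold Par.cn at h
  have h' : 5 * p.r2 i c < 6 * 2 ^ (k + 1) := of_decide_eq_true h
  have h2 : (5 : ℝ) * p.r2 i c < 6 * 2 ^ (k + 1) := by exact_mod_cast h'
  rw [pow_succ] at h2
  linarith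

theorem coin_lt (fk : p.FK) {i c k : ℕ} (hi : i < p.rows) (hc : c < 4) (hk : p.fk i c < k) :
    5 / 3 * ((p.r2 i c : ℝ) / 2) < 2 ^ k ∧ p.rad (coin i c k) = 7 / 20 * 2 ^ k := by
  have h : p.fst' i c k = false := by
    rw [← Bool.not_eq_true]
    intro h
    have := (fk.fst i hi c hc k).1 h
    omega
  refine ⟨?_, rad_coin_le' h⟩
  unfold Par.fst' at h
  have h' : ¬ 6 * 2 ^ k ≤ 5 * p.r2 i c := of_decide_eq_false h
  have h2 : (5 : ℝ) * p.r2 i c < 6 * 2 ^ k := by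
    have : 5 * p.r2 i c < 6 * 2 ^ k := by omega
    exact_mod_cast this
  linarith

/-! ### positions -/

theorem K0_ge : 5 ≤ p.K0 := by unfold Par.K0; omega

theorem u_pos : 0 < p.u := by unfold Par.u; positivity

theorem X_K0 : p.X p.K0 = 16 * p.u * p.K0 := by
  have := K0_ge (p := p)
  unfold Par.X
  rw [if_neg (by omega)]
  omega

theorem Y_row (i : ℕ) : p.Y (7 + 6 * i) = 14 * p.u * (7 + 6 * i) := by
  unfold Par.Y
  rw [if_neg (by omega)]
  omega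

theorem two_pow_le {k : ℕ} (hk : k < p.e + 3) : 2 ^ k ≤ 4 * p.u := by
  unfold Par.u
  calc 2 ^ k ≤ 2 ^ (p.e + 2) := Nat.pow_le_pow_right (by norm_num) (by omega)
    _ = 4 * 2 ^ p.e := by ring

theorem two_pow_le' {k : ℕ} (hk : k < p.e + 2) : 2 ^ k ≤ 2 * p.u := by
  unfold Par.u
  calc 2 ^ k ≤ 2 ^ (p.e + 1) := Nat.pow_le_pow_right (by norm_num) (by omega)
    _ = 2 * 2 ^ p.e := by ring

theorem px_ring0 (i : ℕ) : p.px (ring i 0) = p.X p.K0 := by simp [Par.px]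
theorem px_ring1 (i : ℕ) : p.px (ring i 1) = p.X p.K0 := by simp [Par.px]
theorem px_ring2 (i : ℕ) : p.px (ring i 2) = p.X p.K0 + p.A i := by simp [Par.px]
theorem px_ring3 (i : ℕ) : p.px (ring i 3) = p.X p.K0 + p.A i := by simp [Par.px]
theorem py_ring0' (i : ℕ) : p.py (ring i 0) = p.Y (7 + 6 * i) - p.H i := by simp [Par.py]
theorem py_ring1 (i : ℕ) : p.py (ring i 1) = p.Y (7 + 6 * i) := by simp [Par.py]
theorem py_ring2 (i : ℕ) : p.py (ring i 2) = p.Y (7 + 6 * i) + p.C i := by simp [Par.py]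
theorem py_ring3' (i : ℕ) : p.py (ring i 3) = p.Y (7 + 6 * i) - p.H i := by simp [Par.py]

theorem px_coin0 (i k : ℕ) : p.px (coin i 0 k) = p.X p.K0 := by simp [Par.px]
theorem px_coin1' (i k : ℕ) : p.px (coin i 1 k) = p.X p.K0 - 2 ^ k := by simp [Par.px]
theorem px_coin2 (i k : ℕ) : p.px (coin i 2 k) = p.X p.K0 + p.A i := by simp [Par.px]
theorem px_coin3 (i k : ℕ) : p.px (coin i 3 k) = p.X p.K0 + p.A i + 2 ^ k := by simp [Par.px]
theorem py_coin0' (i k : ℕ) : p.py (coin i 0 k) = p.Y (7 + 6 * i) - p.H i - 2 ^ k := by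
  simp [Par.py]
theorem py_coin1 (i k : ℕ) : p.py (coin i 1 k) = p.Y (7 + 6 * i) := by simp [Par.py]
theorem py_coin2 (i k : ℕ) : p.py (coin i 2 k) = p.Y (7 + 6 * i) + p.C i + 2 ^ k := by
  simp [Par.py]
theorem py_coin3' (i k : ℕ) : p.py (coin i 3 k) = p.Y (7 + 6 * i) - p.H i := by simp [Par.py]

theorem H_le (ok : p.Ok W) {i : ℕ} (hi : i < p.rows) : p.H i ≤ p.A i := by
  have r := row ok hi
  have h : (p.H i : ℝ) ≤ p.A i := by rw [r.H]; linarith [r.R1]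
  exact_mod_cast h

theorem H_le_Y (ok : p.Ok W) {i : ℕ} (hi : i < p.rows) :
    p.H i + 4 * p.u ≤ p.Y (7 + 6 * i) := by
  have h1 := H_le ok hi
  have h2 := ok.sml i hi
  rw [Y_row]
  have h3 : 14 * p.u * 7 ≤ 14 * p.u * (7 + 6 * i) := Nat.mul_le_mul_left _ (by omega)
  omega

theorem le_X : 4 * p.u ≤ p.X p.K0 := by
  rw [X_K0]
  have h3 : 16 * p.u * 5 ≤ 16 * p.u * p.K0 := Nat.mul_le_mul_left _ K0_ge
  omega

theorem py_ring0 (ok : p.Ok W) {i : ℕ} (hi : i < p.rows) :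
    (p.py (ring i 0) : ℝ) = p.Y (7 + 6 * i) - p.H i := by
  rw [py_ring0', Nat.cast_sub]
  have := H_le_Y ok hi
  omega

theorem py_ring3 (ok : p.Ok W) {i : ℕ} (hi : i < p.rows) :
    (p.py (ring i 3) : ℝ) = p.Y (7 + 6 * i) - p.H i := by
  rw [py_ring3', Nat.cast_sub]
  have := H_le_Y ok hi
  omega

theorem py_coin3 (ok : p.Ok W) {i : ℕ} (hi : i < p.rows) (k : ℕ) :
    (p.py (coin i 3 k) : ℝ) = p.Y (7 + 6 * i) - p.H i := by
  rw [py_coin3', Nat.cast_sub]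
  have := H_le_Y ok hi
  omega

theorem py_coin0 (ok : p.Ok W) {i k : ℕ} (hi : i < p.rows) (hk : k < p.e + 3) :
    (p.py (coin i 0 k) : ℝ) = p.Y (7 + 6 * i) - p.H i - 2 ^ k := by
  have := H_le_Y ok hi
  have h2 := two_pow_le hk
  rw [py_coin0', Nat.cast_sub (by omega), Nat.cast_sub (by omega)]
  push_cast
  rfl

theorem px_coin1 {i k : ℕ} (hk : k < p.e + 3) :
    (p.px (coin i 1 k) : ℝ) = p.X p.K0 - 2 ^ k := by
  have := le_X (p := p)
  have h2 := two_pow_le hk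
  rw [px_coin1', Nat.cast_sub (by omega)]
  push_cast
  rfl

end Pool.Agent.Helper59.ES
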