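import Pool.Agent.Helper59.ES.Basis

set_option autoImplicit false

/-! # (S5) the vertices of a ring against each other and against the arms -/

namespace Pool.Agent.Helper59.ES

open Pool.Agent.Helper52.ES Pool.Agent.Helper52.Grid

variable {p : Par} {W : ℕ}

theorem S5_diag1 {A C R g : ℝ} (C0 : 0 ≤ C) (CA : C ≤ A) (R1 : R ≤ A + C)
    (g0 : 0 ≤ g) (gA : 100 * g ≤ A) :
    (A / 2 + (R + C) / 2 + g) ^ 2 ≤ A ^ 2 + ((R + A + C) / 2) ^ 2 := by
  have h1 : (R + A + C) / 2 ≤ 2 * A := by linarith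
  have h2 : g * ((R + A + C) / 2) ≤ g * (2 * A) := mul_le_mul_of_nonneg_left h1 g0
  have h3 : g * A ≤ A / 100 * A := mul_le_mul_of_nonneg_right (by linarith) (by linarith)
  have h4 : g * g ≤ g * A := mul_le_mul_of_nonneg_left (by linarith) g0
  nlinarith

theorem S5_diag2 {A C R g : ℝ} (C0 : 0 ≤ C) (CA : C ≤ A) (R1 : R ≤ A + C)
    (g0 : 0 ≤ g) (gA : 100 * g ≤ A) :
    ((R - C) / 2 + A / 2 + g) ^ 2 ≤ A ^ 2 + ((R + A - C) / 2) ^ 2 := by
  have h1 : (R + A - C) / 2 ≤ A := by linarith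
  have h2 : g * ((R + A - C) / 2) ≤ g * A := mul_le_mul_of_nonneg_left h1 g0
  have h3 : g * A ≤ A / 100 * A := mul_le_mul_of_nonneg_right (by linarith) (by linarith)
  have h4 : g * g ≤ g * A := mul_le_mul_of_nonneg_left (by linarith) g0
  nlinarith

/-- `s1` against the left arm -/
theorem S5_01 {A C R g t : ℝ} (s : A / 5 ≤ (R - C) / 2)
    (R1 : R ≤ A + C) (g0 : 0 ≤ g) (gA : 100 * g ≤ A) (t0 : 0 ≤ t) :
    (A / 2 + 2 / 5 * t + g) ^ 2 ≤ t ^ 2 + ((R + A - C) / 2) ^ 2 := by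
  have hA : 0 ≤ A := by linarith
  have h1 : 7 / 10 * A ≤ (R + A - C) / 2 := by linarith
  have h2 : (7 / 10 * A) ^ 2 ≤ ((R + A - C) / 2) ^ 2 := pow_le_pow_left₀ (by linarith) h1 2
  have h3 : A / 2 + 2 / 5 * t + g ≤ 51 / 100 * A + 2 / 5 * t := by linarith
  have h4 : (A / 2 + 2 / 5 * t + g) ^ 2 ≤ (51 / 100 * A + 2 / 5 * t) ^ 2 :=
    pow_le_pow_left₀ (by linarith) h3 2
  nlinarith [sq_nonneg (t - A / 4)]

/-- `s3` against the left arm -/
theorem S5_21 {A C R g t : ℝ} (C0 : 0 ≤ C) (CA : C ≤ A) (CR : C ≤ R)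
    (low : R ^ 2 ≤ A ^ 2 + C ^ 2) (s : A / 5 ≤ (R - C) / 2)
    (R1 : R ≤ A + C) (g0 : 0 ≤ g) (gA : 100 * g ≤ A) (ht : 5 / 6 * ((R - C) / 2) ≤ t) :
    ((R + C) / 2 + 2 / 5 * t + g) ^ 2 ≤ (A + t) ^ 2 + C ^ 2 := by
  have hA : 0 ≤ A := by linarith
  have t0 : A / 6 ≤ t := by linarith
  have h1 : ((R + C) / 2) ^ 2 ≤ R ^ 2 := pow_le_pow_left₀ (by linarith) (by linarith) 2
  have h2 : (R + C) * t ≤ 3 * A * t := mul_le_mul_of_nonneg_right (by linarith) (by linarith)
  have h3 : g * (R + C) ≤ g * (3 * A) := mul_le_mul_of_nonneg_left (by linarith) g0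
  have h4 : g * A ≤ A / 100 * A := mul_le_mul_of_nonneg_right (by linarith) hA
  have h5 : g * g ≤ g * A := mul_le_mul_of_nonneg_left (by linarith) g0
  have h6 : g * t ≤ A / 100 * t := mul_le_mul_of_nonneg_right (by linarith) (by linarith)
  have h7 : A / 6 * A ≤ t * A := mul_le_mul_of_nonneg_right t0 hA
  nlinarith [sq_nonneg t]

/-- `s3` against the right arm -/
theorem S5_23 {A C R g t : ℝ} (C0 : 0 ≤ C) (CA : C ≤ A) (CR : C ≤ R)
    (R1 : R ≤ A + C) (g0 : 0 ≤ g) (gA : 100 * g ≤ A) (ht : A ≤ t) :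
    ((R + C) / 2 + 2 / 5 * t + g) ^ 2 ≤ t ^ 2 + (A / 2 + (R + C) / 2) ^ 2 := by
  have hA : 0 ≤ A := by linarith
  obtain ⟨r, hr⟩ : ∃ r, r = (R + C) / 2 := ⟨_, rfl⟩
  rw [← hr]
  have r1 : r ≤ 3 / 2 * A := by rw [hr]; linarith
  have r0 : 0 ≤ r := by rw [hr]; linarith
  have h3 : r + 2 / 5 * t + g ≤ r + 2 / 5 * t + A / 100 := by linarith
  have h4 : (r + 2 / 5 * t + g) ^ 2 ≤ (r + 2 / 5 * t + A / 100) ^ 2 :=
    pow_le_pow_left₀ (by linarith) h3 2
  refine h4.trans ?_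
  have h5 : 0 ≤ (3 / 2 * A - r) * (t - A) := mul_nonneg (by linarith) (by linarith)
  have h6 : 0 ≤ (3 / 2 * A - r) * r := mul_nonneg (by linarith) (by linarith)
  have h7 : r * A ≤ 3 / 2 * A * A := mul_le_mul_of_nonneg_right r1 hA
  nlinarith [sq_nonneg (t - A)]

theorem S5 : specS5 := by
  intro p W ok fk i hi
  have r := row ok hi
  obtain ⟨C0, CA, CR, hH, low, high, W0, big, sml, R1, RA, s⟩ := r
  have hr0 := rad_ring0 (p := p) i
  have hr1 := rad_ring1 ok hi
  have hr2 := rad_ring2 (p := p) i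
  have hr3 := rad_ring3 (p := p) i
  have x0 : (p.px (ring i 0) : ℝ) = p.X p.K0 := by rw [px_ring0]
  have x1 : (p.px (ring i 1) : ℝ) = p.X p.K0 := by rw [px_ring1]
  have x2 : (p.px (ring i 2) : ℝ) = p.X p.K0 + p.A i := by rw [px_ring2]; push_cast; rfl
  have x3 : (p.px (ring i 3) : ℝ) = p.X p.K0 + p.A i := by rw [px_ring3]; push_cast; rfl
  have y0 := py_ring0 ok hi
  have y1 : (p.py (ring i 1) : ℝ) = p.Y (7 + 6 * i) := by rw [py_ring1]
  have y2 : (p.py (ring i 2) : ℝ) = p.Y (7 + 6 * i) + p.C i := by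
    rw [py_ring2]; push_cast; rfl
  have y3 := py_ring3 ok hi
  refine ⟨?_, ?_, ?_⟩
  · refine far_sq (-(p.A i : ℝ)) (-(((p.R i : ℝ) + p.A i + p.C i) / 2)) ?_ ?_ ?_
    · rw [x0, x2]; ring
    · rw [y0, y2, hH]; ring
    · rw [hr0, hr2, neg_sq, neg_sq]
      exact S5_diag1 C0 CA R1 (by linarith) (by linarith)
  · refine far_sq (-(p.A i : ℝ)) (((p.R i : ℝ) + p.A i - p.C i) / 2) ?_ ?_ ?_
    · rw [x1, x3]; ring
    · rw [y1, y3, hH]; ring
    · rw [hr1, hr3, neg_sq]
      exact S5_diag2 C0 CA R1 (by linarith) (by linarith)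
  intro c hc c' hc' hne k hk hk3
  have hlt := lt_coin fk hi hc' hk
  have hrad := rad_coin_le (p := p) i c' k
  have t0 : (0 : ℝ) < 2 ^ k := by positivity
  obtain ⟨t, ht⟩ : ∃ t : ℝ, t = 2 ^ k := ⟨_, rfl⟩
  interval_cases c'
  · -- the arm upwards
    have hx : (p.px (coin i 0 k) : ℝ) = p.X p.K0 := by rw [px_coin0]
    have hy := py_coin0 ok hi hk3
    rw [show (p.r2 i 0 : ℝ) / 2 = (p.A i : ℝ) / 2 by rw [← rad_ring, hr0], ← ht] at hlt
    rw [← ht] at hy hrad t0
    interval_cases c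
    · exact absurd rfl hne
    · refine far_y ?_
      rw [y1, hy, hr1, hH]; linarith
    · refine far_y ?_
      rw [y2, hy, hr2, hH]; linarith
    · rcases le_total t (p.A i : ℝ) with h | h
      · refine far_x ?_
        rw [x3, hx, hr3]; linarith
      · refine far_y ?_
        rw [y3, hy, hr3]; linarith
  · -- the arm to the left
    have hx := px_coin1 (p := p) (i := i) hk3
    have hy : (p.py (coin i 1 k) : ℝ) = p.Y (7 + 6 * i) := by rw [py_coin1]
    rw [show (p.r2 i 1 : ℝ) / 2 = ((p.R i : ℝ) - p.C i) / 2 by rw [← rad_ring, hr1], ← ht] at hlt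
    rw [← ht] at hx hrad t0
    have hR : (0 : ℝ) ≤ p.R i := by linarith
    interval_cases c
    · refine far_sq t (-(((p.R i : ℝ) + p.A i - p.C i) / 2)) ?_ ?_ ?_
      · rw [x0, hx]; ring
      · rw [y0, hy, hH]; ring
      · rw [hr0, neg_sq]
        refine le_trans (pow_le_pow_left₀ ?_ ?_ 2)
          (S5_01 s R1 (g := (W : ℝ) + 1) (by linarith) (by linarith) t0.le)
        · have := rad_nonneg (p := p) i 1 k
          linarith
        · linarith
    · exact absurd rfl hne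
    · refine far_sq ((p.A i : ℝ) + t) (p.C i : ℝ) ?_ ?_ ?_
      · rw [x2, hx]; ring
      · rw [y2, hy]; ring
      · rw [hr2]
        refine le_trans (pow_le_pow_left₀ ?_ ?_ 2)
          (S5_21 C0 CA CR low s R1 (g := (W : ℝ) + 1) (by linarith) (by linarith) hlt.le)
        · have := rad_nonneg (p := p) i 1 k
          linarith
        · linarith
    · refine far_x ?_
      rw [x3, hx, hr3]; linarith
  · -- the arm downwards
    have hx : (p.px (coin i 2 k) : ℝ) = p.X p.K0 + p.A i := by rw [px_coin2]; push_cast; rfl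
    have hy : (p.py (coin i 2 k) : ℝ) = p.Y (7 + 6 * i) + p.C i + 2 ^ k := by
      rw [py_coin2]; push_cast; rfl
    rw [show (p.r2 i 2 : ℝ) / 2 = ((p.R i : ℝ) + p.C i) / 2 by rw [← rad_ring, hr2], ← ht] at hlt
    rw [← ht] at hy hrad t0
    interval_cases c
    · refine far_y' ?_
      rw [y0, hy, hr0, hH]; linarith
    · rcases le_total t (p.A i : ℝ) with h | h
      · refine far_x' ?_
        rw [x1, hx, hr1]; linarith
      · refine far_y' ?_
        rw [y1, hy, hr1]; linarith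
    · exact absurd rfl hne
    · refine far_y' ?_
      rw [y3, hy, hr3, hH]; linarith
  · -- the arm to the right
    have hx : (p.px (coin i 3 k) : ℝ) = p.X p.K0 + p.A i + 2 ^ k := by
      rw [px_coin3]; push_cast; rfl
    have hy := py_coin3 ok hi k
    rw [show (p.r2 i 3 : ℝ) / 2 = (p.A i : ℝ) / 2 by rw [← rad_ring, hr3], ← ht] at hlt
    rw [← ht] at hx hrad t0
    interval_cases c
    · refine far_x' ?_
      rw [x0, hx, hr0]; linarith
    · refine far_x' ?_
      rw [x1, hx, hr1]; linarith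
    · rcases le_total t (p.A i : ℝ) with h | h
      · refine far_y ?_
        rw [y2, hy, hr2, hH]; linarith
      · refine far_sq (-t) ((p.A i : ℝ) / 2 + ((p.R i : ℝ) + p.C i) / 2) ?_ ?_ ?_
        · rw [x2, hx]; ring
        · rw [y2, hy, hH]; ring
        · rw [hr2, neg_sq]
          refine le_trans (pow_le_pow_left₀ ?_ ?_ 2)
            (S5_23 C0 CA CR R1 (g := (W : ℝ) + 1) (by linarith) (by linarith) h)
          · have := rad_nonneg (p := p) i 3 k
            linarith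
          · linarith
    · exact absurd rfl hne
where
  rad_nonneg {p : Par} (i c k : ℕ) : 0 ≤ p.rad (coin i c k) := by
    have h : (0 : ℝ) < 2 ^ k := by positivity
    simp only [Par.rad]
    simp only [OfNat.ofNat_ne_zero, if_false, OfNat.ofNat_ne_one, Nat.reduceEqDiff, or_self]
    split_ifs <;> linarith

end Pool.Agent.Helper59.ES
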