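import Pool.Agent.Helper59.ES.Basis

set_option autoImplicit false

/-! # (S8) the arms against the lattice -/

namespace Pool.Agent.Helper59.ES

open Pool.Agent.Helper52.ES Pool.Agent.Helper52.Grid

variable {p : Par} {W : ℕ}

/-! ### columns and lines -/

theorem X_lt {x : ℕ} (h : x < p.K0) : p.X x + 16 * p.u ≤ p.X p.K0 := by
  have h5 := K0_ge (p := p)
  have h0 : p.X p.K0 = 16 * p.u * p.K0 := X_K0
  rw [h0]
  unfold Par.X
  split_ifs with h3
  · have h4 : 16 * p.u * (x + 2) ≤ 16 * p.u * p.K0 := Nat.mul_le_mul_left _ (by omega)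
    rw [Nat.mul_add] at h4
    omega
  · have h4 : 16 * p.u * (x + 1) ≤ 16 * p.u * p.K0 := Nat.mul_le_mul_left _ (by omega)
    rw [Nat.mul_add] at h4
    omega

theorem X_lt2 {x : ℕ} (h : x + 1 < p.K0) : p.X x + 28 * p.u ≤ p.X p.K0 := by
  have h5 := K0_ge (p := p)
  have h0 : p.X p.K0 = 16 * p.u * p.K0 := X_K0
  rw [h0]
  unfold Par.X
  have h4 : 16 * p.u * (x + 2) ≤ 16 * p.u * p.K0 := Nat.mul_le_mul_left _ (by omega)
  rw [Nat.mul_add] at h4
  split_ifs with h3
  · omega
  · omega

theorem X_pred : p.X (p.K0 - 1) + 16 * p.u = p.X p.K0 := by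
  have h5 := K0_ge (p := p)
  have h0 : p.X p.K0 = 16 * p.u * p.K0 := X_K0
  rw [h0]
  unfold Par.X
  rw [if_neg (by omega)]
  obtain ⟨m, hm⟩ : ∃ m, p.K0 = m + 1 := ⟨p.K0 - 1, by omega⟩
  rw [hm, Nat.add_sub_cancel, Nat.mul_add]
  omega

theorem X_succ : p.X (p.K0 + 1) = p.X p.K0 + 16 * p.u := by
  have h5 := K0_ge (p := p)
  have h0 : p.X p.K0 = 16 * p.u * p.K0 := X_K0
  rw [h0]
  unfold Par.X
  rw [if_neg (by omega), Nat.mul_add]
  omega

theorem Y_lt {y i : ℕ} (h : y < 7 + 6 * i) : p.Y y + 14 * p.u ≤ p.Y (7 + 6 * i) := by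
  rw [Y_row]
  have h1 : p.Y y ≤ 14 * p.u * y := by unfold Par.Y; omega
  have h4 : 14 * p.u * (y + 1) ≤ 14 * p.u * (7 + 6 * i) := Nat.mul_le_mul_left _ (by omega)
  rw [Nat.mul_add _ y] at h4
  omega

theorem Y_lt2 {y i : ℕ} (h : y + 1 < 7 + 6 * i) : p.Y y + 28 * p.u ≤ p.Y (7 + 6 * i) := by
  rw [Y_row]
  have h1 : p.Y y ≤ 14 * p.u * y := by unfold Par.Y; omega
  have h4 : 14 * p.u * (y + 2) ≤ 14 * p.u * (7 + 6 * i) := Nat.mul_le_mul_left _ (by omega)
  rw [Nat.mul_add _ y] at h4
  omega

theorem Y_gt {y i : ℕ} (h : 7 + 6 * i < y) : p.Y (7 + 6 * i) + 14 * p.u ≤ p.Y y := by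
  rw [Y_row]
  have h1 : p.Y y = 14 * p.u * y := by unfold Par.Y; rw [if_neg (by omega)]; omega
  have h4 : 14 * p.u * (7 + 6 * i + 1) ≤ 14 * p.u * y := Nat.mul_le_mul_left _ (by omega)
  rw [Nat.mul_add _ (7 + 6 * i)] at h4
  omega

theorem Y_pred (i : ℕ) : p.Y (6 + 6 * i) + 14 * p.u = p.Y (7 + 6 * i) := by
  rw [Y_row]
  unfold Par.Y
  rw [if_neg (by omega)]
  rw [show 7 + 6 * i = (6 + 6 * i) + 1 by ring, Nat.mul_add _ (6 + 6 * i) 1]
  omega

/-! ### the region of an arm -/

/-- bounds for the vertices of an arm, relative to the centre of the hub -/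
structure Reg (p : Par) (a : Vx) (i : ℕ) (l r t b ρ : ℝ) : Prop where
  left : (p.X p.K0 : ℝ) - l ≤ p.px a
  right : (p.px a : ℝ) ≤ p.X p.K0 + r
  top : (p.Y (7 + 6 * i) : ℝ) - t ≤ p.py a
  bot : (p.py a : ℝ) ≤ p.Y (7 + 6 * i) + b
  rad : p.rad a ≤ ρ

/-- the box of an arm, for a bound `T` of the distances of the discs -/
theorem reg (ok : p.Ok W) {a : Vx} {i c k : ℕ} {T : ℝ} (hi : i < p.rows) (hc : c < 4)
    (ha : a = ring i c ∨ (k < p.e + 3 ∧ a = coin i c k ∧ (2 : ℝ) ^ k ≤ T))
    (ρ : ℝ) (hρ : a = coin i c k → p.rad a ≤ ρ) (hT : 0 ≤ T) (hu : (p.u : ℝ) / 5 ≤ ρ) :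
    Reg p a i (if c = 1 then T else 0)
      (if c < 2 then 0 else if c = 3 then p.A i + T else p.A i)
      (if c = 0 then p.H i + T else if c = 3 then p.H i else 0)
      (if c = 2 then p.C i + T else 0) ρ := by
  have r := row ok hi
  obtain ⟨C0, CA, CR, hH, low, high, W0, big, sml, R1, RA, s⟩ := r
  have A0 : (0 : ℝ) ≤ p.A i := by linarith
  have H0 : (0 : ℝ) ≤ p.H i := Nat.cast_nonneg _
  rcases ha with rfl | ⟨hk, rfl, hkT⟩
  · have hr0 := rad_ring0 (p := p) i
    have hr1 := rad_ring1 ok hi
    have hr2 := rad_ring2 (p := p) i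
    have hr3 := rad_ring3 (p := p) i
    have y0 := py_ring0 ok hi
    have y3 := py_ring3 ok hi
    interval_cases c
    · refine ⟨?_, ?_, ?_, ?_, ?_⟩
      · rw [px_ring0]; simp
      · rw [px_ring0]; simp
      · rw [y0]; simp; linarith
      · rw [y0]; simp
      · rw [hr0]; linarith
    · refine ⟨?_, ?_, ?_, ?_, ?_⟩
      · rw [px_ring1, if_pos rfl]; linarith
      · rw [px_ring1]; simp
      · rw [py_ring1]; simp
      · rw [py_ring1]; simp
      · rw [hr1]; linarith
    · refine ⟨?_, ?_, ?_, ?_, ?_⟩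
      · rw [px_ring2]; simp
      · rw [px_ring2]; simp
      · rw [py_ring2]; simp
      · rw [py_ring2, if_pos rfl]; push_cast; linarith
      · rw [hr2]; linarith
    · refine ⟨?_, ?_, ?_, ?_, ?_⟩
      · rw [px_ring3]; simp
      · rw [px_ring3]; simp; linarith
      · rw [y3]; simp
      · rw [y3]; simp
      · rw [hr3]; linarith
  · have t0 : (0 : ℝ) < 2 ^ k := by positivity
    interval_cases c
    · have y0 := py_coin0 ok hi hk
      refine ⟨?_, ?_, ?_, ?_, hρ rfl⟩
      · rw [px_coin0]; simp
      · rw [px_coin0]; simp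
      · rw [y0]; simp; linarith
      · rw [y0]; simp; linarith
    · have x0 := px_coin1 (i := i) hk
      refine ⟨?_, ?_, ?_, ?_, hρ rfl⟩
      · rw [x0]; simp; linarith
      · rw [x0]; simp
      · rw [py_coin1]; simp
      · rw [py_coin1]; simp
    · refine ⟨?_, ?_, ?_, ?_, hρ rfl⟩
      · rw [px_coin2]; simp
      · rw [px_coin2]; simp
      · rw [py_coin2]; push_cast; linarith
      · rw [py_coin2]; push_cast; linarith
    · have y3 := py_coin3 ok hi k
      refine ⟨?_, ?_, ?_, ?_, hρ rfl⟩
      · rw [px_coin3]; push_cast; linarith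
      · rw [px_coin3]; push_cast; linarith
      · rw [y3]; simp
      · rw [y3]; simp

/-- all vertices of an arm -/
theorem reg_all (ok : p.Ok W) (fk : p.FK) {a : Vx} {i c : ℕ} (ha : p.Arm a i c) :
    Reg p a i (4 * p.u) (p.A i + 4 * p.u) (p.H i + 4 * p.u) (p.C i + 4 * p.u)
      (7 / 5 * p.u) := by
  obtain ⟨hi, hc, ha⟩ := ha
  have r := row ok hi
  obtain ⟨C0, CA, CR, hH, low, high, W0, big, sml, R1, RA, s⟩ := r
  have A0 : (0 : ℝ) ≤ p.A i := by linarith
  have H0 : (0 : ℝ) ≤ p.H i := Nat.cast_nonneg _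
  have u0 : (0 : ℝ) ≤ p.u := by linarith
  have key : ∃ k, a = ring i c ∨ (k < p.e + 3 ∧ a = coin i c k ∧ (2 : ℝ) ^ k ≤ 4 * p.u) ∧
      p.rad a ≤ 7 / 5 * p.u := by
    rcases ha with h | ⟨k, hk, hk3, h⟩
    · exact ⟨0, Or.inl h⟩
    · have h2 : (2 : ℝ) ^ k ≤ 4 * p.u := by exact_mod_cast two_pow_le hk3
      refine ⟨k, Or.inr ⟨⟨hk3, h, h2⟩, ?_⟩⟩
      rw [h]
      rcases Nat.eq_or_lt_of_le hk with h3 | h3
      · have h4 := rad_coin_le (p := p) i c k
        have h5 := fk.lt i hi c hc
        have h6 : (2 : ℝ) ^ k ≤ p.u := by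
          rw [u_pow]
          exact pow_le_pow_right₀ (by norm_num) (by omega)
        linarith
      · have h4 := (coin_lt fk hi hc h3).2
        rw [h4]
        linarith
  obtain ⟨k, hk⟩ := key
  have hc' := hc
  have q := reg ok (a := a) (i := i) (c := c) (k := k) (T := 4 * p.u) hi hc
    (hk.imp id (fun h => h.1)) (7 / 5 * p.u) (fun h => by
      rcases hk with h' | h'
      · rw [h] at h'
        exact absurd (congrArg Prod.fst h') (by norm_num)
      · exact h'.2) (by linarith) (by linarith)
  refine ⟨?_, ?_, ?_, ?_, q.rad⟩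
  · have := q.left
    split_ifs at this <;> linarith
  · have := q.right
    split_ifs at this <;> linarith
  · have := q.top
    split_ifs at this <;> linarith
  · have := q.bot
    split_ifs at this <;> linarith

/-- the vertices of an arm before the last one -/
theorem reg_own (ok : p.Ok W) {a : Vx} {i c : ℕ} (ha : p.Arm a i c)
    (hl : a ≠ coin i c (p.e + 2)) :
    Reg p a i (if c = 1 then 2 * p.u else 0)
      (if c < 2 then 0 else if c = 3 then p.A i + 2 * p.u else p.A i)
      (if c = 0 then p.H i + 2 * p.u else if c = 3 then p.H i else 0)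
      (if c = 2 then p.C i + 2 * p.u else 0) (4 / 5 * p.u) := by
  obtain ⟨hi, hc, ha⟩ := ha
  have u0 : (0 : ℝ) ≤ p.u := Nat.cast_nonneg _
  have key : ∃ k, a = ring i c ∨ (k < p.e + 3 ∧ a = coin i c k ∧ (2 : ℝ) ^ k ≤ 2 * p.u) ∧
      p.rad a ≤ 4 / 5 * p.u := by
    rcases ha with h | ⟨k, hk, hk3, h⟩
    · exact ⟨0, Or.inl h⟩
    · have hk2 : k < p.e + 2 := by
        rcases Nat.lt_or_ge k (p.e + 2) with h' | h'
        · exact h'
        · exact absurd (by rw [h, show k = p.e + 2 by omega]) hl
      have h2 : (2 : ℝ) ^ k ≤ 2 * p.u := by exact_mod_cast two_pow_le' hk2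
      refine ⟨k, Or.inr ⟨⟨hk3, h, h2⟩, ?_⟩⟩
      rw [h]
      have h4 := rad_coin_le (p := p) i c k
      linarith
  obtain ⟨k, hk⟩ := key
  exact reg ok (a := a) (i := i) (c := c) (k := k) (T := 2 * p.u) hi hc
    (hk.imp id (fun h => h.1)) (4 / 5 * p.u) (fun h => by
      rcases hk with h' | h'
      · rw [h] at h'
        exact absurd (congrArg Prod.fst h') (by norm_num)
      · exact h'.2) (by linarith) (by linarith)

/-- the vertices of an arm, with the weaker radius -/
theorem reg_oth (ok : p.Ok W) (fk : p.FK) {a : Vx} {i c : ℕ} (ha : p.Arm a i c) :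
    Reg p a i (if c = 1 then 4 * p.u else 0)
      (if c < 2 then 0 else if c = 3 then p.A i + 4 * p.u else p.A i)
      (if c = 0 then p.H i + 4 * p.u else if c = 3 then p.H i else 0)
      (if c = 2 then p.C i + 4 * p.u else 0) (7 / 5 * p.u) := by
  have hr := (reg_all ok fk ha).rad
  obtain ⟨hi, hc, ha⟩ := ha
  have u0 : (0 : ℝ) ≤ p.u := Nat.cast_nonneg _
  rcases ha with h | ⟨k, hk, hk3, h⟩
  · exact reg ok (a := a) (i := i) (c := c) (k := 0) (T := 4 * p.u) hi hc (Or.inl h) _
      (fun _ => hr) (by linarith) (by linarith)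
  · have h2 : (2 : ℝ) ^ k ≤ 4 * p.u := by exact_mod_cast two_pow_le hk3
    exact reg ok (a := a) (i := i) (c := c) (k := k) (T := 4 * p.u) hi hc
      (Or.inr ⟨hk3, h, h2⟩) _ (fun _ => hr) (by linarith) (by linarith)

/-! ### the radii of the lattice -/

theorem rad_hm (x y : ℕ) : p.rad (hm x y) = 4 * p.u := by simp [Par.rad]
theorem rad_vm (x y : ℕ) : p.rad (vm x y) = 4 * p.u := by simp [Par.rad]

theorem rad_lat_le (x y : ℕ) : p.rad (lat x y) ≤ 8 * p.u := by
  have u0 : (0 : ℝ) ≤ p.u := Nat.cast_nonneg _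
  simp only [Par.rad, if_true]
  split_ifs <;> linarith

theorem rad_lat_le' {x y : ℕ} (h : p.fd x y ≠ 1) : p.rad (lat x y) ≤ 5 * p.u := by
  have u0 : (0 : ℝ) ≤ p.u := Nat.cast_nonneg _
  simp only [Par.rad, if_true, if_neg h]
  split_ifs <;> linarith


/-! ### the main statement -/

theorem S8 : specS8 := by
  intro p W ok nf fk a i c ha
  have ra := reg_all ok fk ha
  have hi := ha.1
  have r := row ok hi
  obtain ⟨C0, CA, CR, hH, low, high, W0, big, sml, R1, RA, s⟩ := r
  have hHA : (p.H i : ℝ) ≤ p.A i := by exact_mod_cast H_le ok hi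
  have H0 : (0 : ℝ) ≤ p.H i := Nat.cast_nonneg _
  have hK := K0_ge (p := p)
  refine ⟨?_, ?_, ?_⟩
  · intro x y hfd hhub
    have hb := (nf.box x y hfd).2.1
    rcases Nat.lt_trichotomy x p.K0 with hx | hx | hx
    · have h1 : (p.X x : ℝ) + 16 * p.u ≤ p.X p.K0 := by exact_mod_cast X_lt hx
      have h2 : (p.px (lat x y) : ℝ) = p.X x := by
        simp only [Par.px, if_true]
        rw [if_neg (by omega), add_zero]
      refine far_x ?_
      rw [h2]
      linarith [ra.left, ra.rad, rad_lat_le (p := p) x y]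
    · subst hx
      have hfd1 : p.fd p.K0 y ≠ 1 := fun h => absurd (nf.one _ _ h) (lt_irrefl _)
      have h2 : (p.py (lat p.K0 y) : ℝ) = p.Y y := by
        simp only [Par.py, if_true]
        rw [if_neg (by omega), Nat.sub_zero]
      rcases Nat.lt_trichotomy y (7 + 6 * i) with hy | hy | hy
      · have h1 : (p.Y y : ℝ) + 14 * p.u ≤ p.Y (7 + 6 * i) := by exact_mod_cast Y_lt hy
        refine far_y ?_
        rw [h2]
        linarith [ra.top, ra.rad, rad_lat_le' hfd1]
      · exfalso
        have := (nf.hubI p.K0 y).2 ⟨rfl, i, hi, hy⟩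
        rw [this] at hhub
        exact absurd hhub (by decide)
      · have h1 : (p.Y (7 + 6 * i) : ℝ) + 14 * p.u ≤ p.Y y := by exact_mod_cast Y_gt hy
        refine far_y' ?_
        rw [h2]
        linarith [ra.bot, ra.rad, rad_lat_le' hfd1]
    · have hx' : x = p.K0 + 1 := by omega
      subst hx'
      have h1 : (p.X (p.K0 + 1) : ℝ) = p.X p.K0 + 16 * p.u := by exact_mod_cast X_succ
      have h2 : (p.px (lat (p.K0 + 1) y) : ℝ) = p.X (p.K0 + 1) := by
        simp only [Par.px, if_true]
        rw [if_neg (by omega), add_zero]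
      refine far_x' ?_
      rw [h2, h1]
      linarith [ra.right, ra.rad, rad_lat_le (p := p) (p.K0 + 1) y]
  · intro x y hxy hne
    have hb := nf.boxh x y hxy
    have hrad := rad_hm (p := p) x y
    rcases Nat.lt_trichotomy (x + 1) p.K0 with hx | hx | hx
    · have h1 : (p.X x : ℝ) + 28 * p.u ≤ p.X p.K0 := by exact_mod_cast X_lt2 hx
      have h2 : (p.px (hm x y) : ℝ) ≤ p.X x + 8 * p.u := by
        have : p.px (hm x y) ≤ p.X x + 8 * p.u := by
          simp only [Par.px, Nat.one_ne_zero, if_false, if_true]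
          split_ifs <;> omega
        exact_mod_cast this
      refine far_x ?_
      rw [hrad]
      linarith [ra.left, ra.rad]
    · have hx' : x = p.K0 - 1 := by omega
      have h1 : (p.X x : ℝ) + 16 * p.u = p.X p.K0 := by
        rw [hx']; exact_mod_cast X_pred
      have h2 : (p.px (hm x y) : ℝ) = p.X x + 8 * p.u := by
        have : p.px (hm x y) = p.X x + 8 * p.u := by
          simp only [Par.px, Nat.one_ne_zero, if_false, if_true]
          rw [if_neg (by omega)]
        rw [this]; push_cast; rfl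
      have h3 : (p.py (hm x y) : ℝ) = p.Y y := by
        simp only [Par.py, Nat.one_ne_zero, if_false, if_true]
        rw [if_neg (by omega), Nat.sub_zero]
      rcases Nat.lt_trichotomy y (7 + 6 * i) with hy | hy | hy
      · have h1 : (p.Y y : ℝ) + 14 * p.u ≤ p.Y (7 + 6 * i) := by exact_mod_cast Y_lt hy
        refine far_y ?_
        rw [h3, hrad]
        linarith [ra.top, ra.rad]
      · by_cases hc1 : c = 1
        · have q := reg_own ok ha (fun h => hne ⟨h, by
            rw [hx', hy, hc1]
            simp [Par.mid]⟩)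
          rw [hc1] at q
          refine far_x ?_
          rw [h2, hrad]
          have h5 := q.left
          rw [if_pos rfl] at h5
          linarith [q.rad]
        · have q := reg_oth ok fk ha
          refine far_x ?_
          rw [h2, hrad]
          have h5 := q.left
          rw [if_neg hc1] at h5
          linarith [q.rad]
      · have h1 : (p.Y (7 + 6 * i) : ℝ) + 14 * p.u ≤ p.Y y := by exact_mod_cast Y_gt hy
        refine far_y' ?_
        rw [h3, hrad]
        linarith [ra.bot, ra.rad]
    · have hx' : x = p.K0 := by omega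
      subst hx'
      have h2 : (p.px (hm p.K0 y) : ℝ) = p.X p.K0 + 8 * p.u := by
        have : p.px (hm p.K0 y) = p.X p.K0 + 8 * p.u := by
          simp only [Par.px, Nat.one_ne_zero, if_false, if_true]
          rw [if_neg (by omega)]
        rw [this]; push_cast; rfl
      have h3 : (p.py (hm p.K0 y) : ℝ) ≤ p.Y y := by
        have : p.py (hm p.K0 y) ≤ p.Y y := by
          simp only [Par.py, Nat.one_ne_zero, if_false, if_true]
          omega
        exact_mod_cast this
      rcases Nat.lt_trichotomy y (7 + 6 * i) with hy | hy | hy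
      · have h1 : (p.Y y : ℝ) + 14 * p.u ≤ p.Y (7 + 6 * i) := by exact_mod_cast Y_lt hy
        refine far_y ?_
        rw [hrad]
        linarith [ra.top, ra.rad]
      · by_cases hc3 : c = 3
        · have q := reg_own ok ha (fun h => hne ⟨h, by
            rw [hy, hc3]
            simp [Par.mid]⟩)
          rw [hc3] at q
          refine far_x' ?_
          rw [h2, hrad]
          have h5 := q.right
          rw [if_neg (by norm_num), if_pos rfl] at h5
          linarith [q.rad]
        · have q := reg_oth ok fk ha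
          refine far_x' ?_
          rw [h2, hrad]
          have h5 := q.right
          have h6 : (p.px a : ℝ) ≤ p.X p.K0 + p.A i := by
            refine h5.trans ?_
            rw [if_neg hc3]
            split_ifs <;> linarith
          linarith [q.rad]
      · rcases (nf.k0h y).1 hxy with h | ⟨i', hi', h⟩
        · omega
        · have h1 : (p.Y (7 + 6 * i) : ℝ) + 14 * p.u ≤ p.Y y := by exact_mod_cast Y_gt hy
          have r' := row ok hi'
          have hHA' : (p.H i' : ℝ) ≤ p.A i' := by exact_mod_cast H_le ok hi'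
          have h4 : (p.Y y : ℝ) ≤ p.py (hm p.K0 y) + p.H i' := by
            have : p.Y y ≤ p.py (hm p.K0 y) + p.H i' := by
              simp only [Par.py, Nat.one_ne_zero, if_false, if_true]
              rw [if_pos ⟨trivial, by omega⟩, show (y - 4) / 6 = i' by omega]
              omega
            exact_mod_cast this
          refine far_y' ?_
          rw [hrad]
          linarith [ra.bot, ra.rad, r'.sml]
  · intro x y hxy hne
    have hb := nf.boxv x y hxy
    have hrad := rad_vm (p := p) x y
    have h3 : (p.py (vm x y) : ℝ) = p.Y y + 7 * p.u := by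
      have : p.py (vm x y) = p.Y y + 7 * p.u := by
        simp only [Par.py, OfNat.ofNat_ne_zero, OfNat.ofNat_ne_one, if_false, if_true]
      rw [this]; push_cast; rfl
    rcases Nat.lt_trichotomy x p.K0 with hx | hx | hx
    · have h1 : (p.X x : ℝ) + 16 * p.u ≤ p.X p.K0 := by exact_mod_cast X_lt hx
      have h2 : (p.px (vm x y) : ℝ) = p.X x := by
        simp only [Par.px, OfNat.ofNat_ne_zero, OfNat.ofNat_ne_one, if_false, if_true]
        rw [if_neg (by omega), add_zero]
      refine far_x ?_
      rw [h2, hrad]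
      linarith [ra.left, ra.rad]
    · subst hx
      rcases Nat.lt_trichotomy y (7 + 6 * i) with hy | hy | hy
      · rcases Nat.eq_or_lt_of_le (show y ≤ 6 + 6 * i by omega) with hy' | hy'
        · have h1 : (p.Y y : ℝ) + 14 * p.u = p.Y (7 + 6 * i) := by
            rw [hy']; exact_mod_cast Y_pred i
          by_cases hc0 : c = 0
          · have q := reg_own ok ha (fun h => hne ⟨h, by
              rw [hy', hc0]
              simp [Par.mid]⟩)
            rw [hc0] at q
            refine far_y ?_
            rw [h3, hrad]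
            have h5 := q.top
            rw [if_pos rfl] at h5
            linarith [q.rad]
          · have q := reg_oth ok fk ha
            refine far_y ?_
            rw [h3, hrad]
            have h5 := q.top
            have h6 : (p.Y (7 + 6 * i) : ℝ) - p.H i ≤ p.py a := by
              refine le_trans ?_ h5
              rw [if_neg hc0]
              split_ifs <;> linarith
            linarith [q.rad]
        · have h1 : (p.Y y : ℝ) + 28 * p.u ≤ p.Y (7 + 6 * i) := by
            exact_mod_cast Y_lt2 (by omega)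
          refine far_y ?_
          rw [h3, hrad]
          linarith [ra.top, ra.rad]
      · have h1 : (p.Y y : ℝ) = p.Y (7 + 6 * i) := by rw [hy]
        by_cases hc2 : c = 2
        · have q := reg_own ok ha (fun h => hne ⟨h, by
            rw [hy, hc2]
            simp [Par.mid]⟩)
          rw [hc2] at q
          refine far_y' ?_
          rw [h3, hrad]
          have h5 := q.bot
          rw [if_pos rfl] at h5
          linarith [q.rad]
        · have q := reg_oth ok fk ha
          refine far_y' ?_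
          rw [h3, hrad]
          have h5 := q.bot
          rw [if_neg hc2] at h5
          linarith [q.rad]
      · have h1 : (p.Y (7 + 6 * i) : ℝ) + 14 * p.u ≤ p.Y y := by exact_mod_cast Y_gt hy
        refine far_y' ?_
        rw [h3, hrad]
        linarith [ra.bot, ra.rad]
    · have hx' : x = p.K0 + 1 := by omega
      subst hx'
      have h1 : (p.X (p.K0 + 1) : ℝ) = p.X p.K0 + 16 * p.u := by exact_mod_cast X_succ
      have h2 : (p.px (vm (p.K0 + 1) y) : ℝ) = p.X (p.K0 + 1) := by
        simp only [Par.px, OfNat.ofNat_ne_zero, OfNat.ofNat_ne_one, if_false, if_true]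
        rw [if_neg (by omega), add_zero]
      refine far_x' ?_
      rw [h2, h1, hrad]
      linarith [ra.right, ra.rad]

end Pool.Agent.Helper59.ES
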